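import Pool.Agent.H838.CFNRConv

/-!
# Chow-Kunneth decompositions with coefficients in a field: descent to rational coefficients

`𝒱` is a class of smooth projective geometrically irreducible varieties over the field `k` closed
under products (for example all of them), `C` the Chow groups with rational coefficients (in the
form of their formal properties, `IsChowProj`), and `H` a Weil cohomology theory (`IsWeilProj`).
`ChF F C` are the Chow groups with coefficients in a field `F` of characteristic zero, and
`CKF F X H p` says that `p` is a Chow-Kunneth decomposition of `X` with coefficients in `F`.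
It has no raising morphisms (`NeverRaisesF`) if `p_b ∘ γ ∘ p_a = 0` for `a < b` and all
self-correspondences `γ` of degree zero, that is, there are no morphisms `h^a(X) → h^b(X)`, `a < b`.
This would follow from the first half of Murre's conjecture (B) for `X × X`.

1. `X` has a Chow-Kunneth decomposition without raising morphisms with coefficients in `F` if and only
   if it has a rational one.
2. If a variety `Z` has a Chow-Kunneth decomposition without raising morphisms with coefficients in
   `F`, then every `X` such that a Tate twist of `h(X)` is a direct summand of `h(Z)` has a rational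
   self-dual Chow-Kunneth decomposition, and a rational one without raising morphisms.
3. Let every finitely generated `ℚ`-subalgebra of `F` have a homomorphism to the field `F₀`. Every
   `X` with a Chow-Kunneth decomposition with coefficients in `F` has one with coefficients in `F₀`.
4. In particular, if every finitely generated `ℚ`-subalgebra of `F` has a homomorphism to `ℚ`, then
   every `X` with a Chow-Kunneth decomposition with coefficients in `F` has a rational one.

For the proof of 1, the decomposition is specialized to a Galois extension `L` of `ℚ`. Let `e_a` be the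
sum of the `p_c` with `c ≤ a`. The right ideal generated by `e_a` is two-sided. The product `z_a` of the
conjugates of `e_a` (in any order) is an idempotent which generates the intersection of the conjugate
ideals; so all its conjugates generate the same ideal, and the average of the conjugates is a rational
idempotent which still generates this two-sided ideal. In this way one finds a rational flag of
idempotents, and a rational Chow-Kunneth decomposition.
-/

set_option autoImplicit false

universe u v w t s

namespace Pool.Agent.Results.MP_638e8a_ag.CoefficientDescent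

open Pool.Agent.H914 Pool.Agent.H914.VarClass Pool.Agent.H914.VarClass.Obj Pool.Agent.W492.BB
  Pool.Agent.W550.Corr Pool.Agent.TH133 Pool.Agent.Q28.MS Pool.Agent.H838.CF

theorem result {k : Type u} [Field k] {𝒱 : VarClass k} (C : TheoryData.{u, v, 0} 𝒱 ℚ)
    [IsChowProj C] {K : Type w} [Field K] (H : WeilTheoryData.{u, v, w} C K) [IsWeilProj H]
    (F : Type t) [Field F] [Algebra ℚ F] :
    (∀ X : 𝒱.Obj, (∃ p, CKF F X H p ∧ NeverRaisesF F X p) ↔
      ∃ π : ℕ → C.A (X.prod X), IsCK H X π ∧ NeverRaises π) ∧
    (∀ (X Z : 𝒱.Obj) (c : ℕ), Summand C c X Z → (∃ p, CKF F Z H p ∧ NeverRaisesF F Z p) →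
      HasSelfDualCK H X ∧ ∃ π : ℕ → C.A (X.prod X), IsCK H X π ∧ NeverRaises π) ∧
    (∀ (X : 𝒱.Obj) (F₀ : Type s) [Field F₀] [Algebra ℚ F₀],
      (∀ R : Subalgebra ℚ F, R.FG → Nonempty (R →ₐ[ℚ] F₀)) → (∃ p, CKF F X H p) →
        ∃ p, CKF F₀ X H p) ∧
    (∀ X : 𝒱.Obj, (∀ R : Subalgebra ℚ F, R.FG → Nonempty (R →ₐ[ℚ] ℚ)) → (∃ p, CKF F X H p) →
      ∃ π : ℕ → C.A (X.prod X), IsCK H X π) := by
  refine ⟨fun X => nr_iff F, fun X Z c hs hZ => ?_, fun X F₀ _ _ h1 h2 => exists_of_points h1 h2,
    fun X h1 h2 => exists_of_ratPoints h1 h2⟩
  obtain ⟨π, h, hr⟩ := (nr_iff F).1 hZ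
  obtain ⟨π', h', hr'⟩ := neverRaises_of_summand hs h hr
  exact ⟨selfDual_of_neverRaises h' hr', π', h', hr'⟩

end Pool.Agent.Results.MP_638e8a_ag.CoefficientDescent
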