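import Pool.Agent.H838.CFIdxMain

/-!
# The Chow-Kunneth conjecture and number fields of degree prime to `p`

`𝒱` is a class of smooth projective geometrically irreducible varieties over the field `k` closed
under products (for example all of them), `C` the Chow groups with rational coefficients (in the form
of their formal properties, `IsChowProj`), and `H` a Weil cohomology theory (`IsWeilProj`). For a
field `E` of characteristic zero, `ChF E C` are the Chow groups with coefficients in `E`, and
`CKF E X H p` says that `p` is a Chow-Kunneth decomposition of `X` with coefficients in `E`.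

Let `X` be a variety such that self-correspondences of degree zero which induce a bijection of `H(X)`
are automorphisms of the Chow motive of `X` (`Conserv`). Then:

1. `X` has a Chow-Kunneth decomposition (with rational coefficients) if and only if for every prime
   number `p` it has a Chow-Kunneth decomposition with coefficients in a number field of degree prime
   to `p`.
2. Any two Chow-Kunneth decompositions of `X` are conjugate by an automorphism of the Chow motive of
   `X` which acts as the identity on `H(X)`.
3. Let `q` be a self-correspondence of degree zero which acts as an idempotent on `H(X)`. Some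
   idempotent correspondence has the same cohomology class as `q` if and only if for every prime number
   `p` there are a number field `E` of degree prime to `p` and an idempotent correspondence with
   coefficients in `E` which is congruent to `q` modulo the homologically trivial ones.

For arbitrary `X`:

4. If `X` has a Chow-Kunneth decomposition with coefficients in some field of characteristic zero, it
   has one with coefficients in a number field.
-/

set_option autoImplicit false

universe u v w t

namespace Pool.Agent.Results.MP_638e8a_ag.PrimeToPDegrees

open Pool.Agent.H914 Pool.Agent.H914.VarClass Pool.Agent.H914.VarClass.Obj Pool.Agent.W492.BB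
  Pool.Agent.W550.Corr Pool.Agent.TH133 Pool.Agent.H838.CF

theorem result {k : Type u} [Field k] {𝒱 : VarClass k} (C : TheoryData.{u, v, 0} 𝒱 ℚ)
    [IsChowProj C] {K : Type w} [Field K] (H : WeilTheoryData.{u, v, w} C K) [IsWeilProj H] :
    (∀ X : 𝒱.Obj, Conserv H X →
      ((∃ π, IsCK H X π) ↔
        ∀ p : ℕ, p.Prime → ∃ m, CKDegree.{u, v, w, t} H X m ∧ ¬ p ∣ m) ∧
      UniqueUpToConjugation H X ∧
      ∀ q : C.A (X.prod X), C.Deg X.dim q →
        (∀ a : H.A X, H.act (H.cl q) (H.act (H.cl q) a) = H.act (H.cl q) a) →
        ((∃ π, C.Deg X.dim π ∧ C.comp π π = π ∧ H.cl π = H.cl q) ↔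
          ∀ p : ℕ, p.Prime → ∃ m, LiftDegree.{u, v, w, t} H X q m ∧ ¬ p ∣ m)) ∧
    (∀ (X : 𝒱.Obj) (F : Type t) [Field F] [Algebra ℚ F], (∃ p, CKF F X H p) →
      ∃ m, CKDegree.{u, v, w, t} H X m) :=
  ⟨fun _ hX => ⟨ck_iff_primes hX, unique_of_conserv hX, fun _ hq hqq => lift_iff_primes hX hq hqq⟩,
    fun _ _ _ _ h => ckDegree_of_field h⟩

end Pool.Agent.Results.MP_638e8a_ag.PrimeToPDegrees
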